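import Pool.Agent.W780.PG.Defs

set_option autoImplicit false

/-!
Statements of the parts.
-/

namespace Pool.Agent.W780.PG

open Complex Set Filter Topology Metric

open scoped ContDiff ComplexConjugate Real

/-- open polygon as an intersection of half planes -/
def reg {n : ℕ} (p : Fin (n + 3) → ℂ) : Set ℂ := {z | ∀ i, 0 < lft (p i) (p (i + 1)) z}

/-- closed polygon as an intersection of half planes -/
def creg {n : ℕ} (p : Fin (n + 3) → ℂ) : Set ℂ := {z | ∀ i, 0 ≤ lft (p i) (p (i + 1)) z}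

/-- open side -/
def side {n : ℕ} (p : Fin (n + 3) → ℂ) (i : Fin (n + 3)) : Set ℂ := openSegment ℝ (p i) (p (i + 1))

/-! ### Basic facts on convex polygons -/

def S_Basic : Prop := ∀ (n : ℕ) (p : Fin (n + 3) → ℂ), IsConvexPolygon p →
  Function.Injective p ∧ IsOpen (reg p) ∧ Convex ℝ (reg p) ∧ IsClosed (creg p) ∧
  Convex ℝ (creg p) ∧ (reg p).Nonempty ∧ closure (reg p) = creg p ∧ (∀ i, p i ∈ creg p) ∧
  (∀ i, side p i ⊆ frontier (reg p)) ∧ frontier (reg p) = {z | z ∈ creg p ∧ z ∉ reg p} ∧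
  (∀ z ∈ creg p, ∀ i, lft (p i) (p (i + 1)) z = 0 → (∀ k, z ≠ p k) →
    z ∈ side p i ∧ ∀ k, k ≠ i → 0 < lft (p k) (p (k + 1)) z) ∧
  (∀ i k, p k ∉ side p i) ∧
  (∀ i, ∀ z ∈ side p i, z ∈ creg p ∧ lft (p i) (p (i + 1)) z = 0 ∧
    ∀ k, k ≠ i → 0 < lft (p k) (p (k + 1)) z) ∧
  (∀ i, ∀ a ∈ creg p, ∀ b ∈ creg p, a ≠ b → p i ∉ openSegment ℝ a b)

def S_Hull : Prop := ∀ (n : ℕ) (p : Fin (n + 3) → ℂ), IsConvexPolygon p →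
  creg p = convexHull ℝ (range p) ∧ region p = reg p

def S_AngSum : Prop := ∀ (n : ℕ) (p : Fin (n + 3) → ℂ), IsConvexPolygon p →
  (∀ i, 0 < ang p i ∧ ang p i < π) ∧ ∑ i, ang p i = ((n : ℝ) + 1) * π

/-- Angular coordinate of `z` seen from `x`, measured from the direction `exp (i a)`. -/
noncomputable def acoord (x : ℂ) (a : ℝ) (z : ℂ) : ℝ := arg ((z - x) * exp (-(a : ℂ) * I))

/-- Near `x` the set `S` is the open sector with apex `x` between the directions `exp (i a)` and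
`exp (i (a + α))`. -/
def Sec (S : Set ℂ) (x : ℂ) (a α : ℝ) : Prop :=
  0 < α ∧ α ≤ π ∧ ∃ ε > 0, ∀ z, 0 < ‖z - x‖ → ‖z - x‖ < ε →
    (z ∈ S ↔ 0 < acoord x a z ∧ acoord x a z < α)

def S_Secs : Prop := ∀ (n : ℕ) (p : Fin (n + 3) → ℂ), IsConvexPolygon p →
  (∀ i, Sec (reg p) (p i) (arg (p (i + 1) - p i)) (ang p i)) ∧
  (∀ i, ∀ z ∈ side p i, Sec (reg p) z (arg (p (i + 1) - p i)) π)

/-! ### One dimensional lemmas -/

def S_Sin : Prop := ∀ (κ b c : ℝ) (f f' : ℝ → ℂ) (E : Finset ℝ), b < c → κ ≠ 0 →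
  Real.sin (κ * (c - b)) ≠ 0 → ContinuousOn f (Icc b c) → ContinuousOn f' (Ioo b c) →
  (∀ t ∈ Ioo b c, HasDerivAt f (f' t) t) → f b = 0 → f c = 0 →
  (∀ t ∈ Ioo b c, t ∉ E → ∃ u v : ℂ, ∀ᶠ s in 𝓝 t,
    f s = u * ((Real.cos (κ * s) : ℝ) : ℂ) + v * ((Real.sin (κ * s) : ℝ) : ℂ)) →
  ∀ t ∈ Icc b c, f t = 0

def S_Lin : Prop := ∀ (ι : Type) (s : Finset ι) (t : ι → ℝ) (a : ι → ℂ),
  (∀ i ∈ s, 0 < t i ∧ t i < π) → (∀ i ∈ s, ∀ j ∈ s, t i = t j → i = j) →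
  (∀ k : ℕ, 0 < k → ∑ i ∈ s, a i * ((Real.sin (k * t i) : ℝ) : ℂ) = 0) → ∀ i ∈ s, a i = 0

/-! ### Transplantations with constant coefficients -/

/-- A transplantation with constant coefficients from functions on `A` to functions on `B`. -/
structure CT (A B : Set ℂ) where
  X : Finset (ℂ ≃ᵢ ℂ)
  γ : (ℂ ≃ᵢ ℂ) → ℂ
  ne : ∀ g ∈ X, γ g ≠ 0
  ov : ∀ g ∈ X, ∃ y ∈ B, g y ∈ A
  maps : ∀ F : ℂ → ℝ, ContDiff ℝ ∞ F → HasCompactSupport F → (∀ z ∈ frontier A, F z = 0) →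
    ContDiffOn ℝ 1 (fun y => ∑ g ∈ X, γ g * ((A.indicator F (g y) : ℝ) : ℂ)) B ∧
    ∀ y ∈ frontier B, ∑ g ∈ X, γ g * ((A.indicator F (g y) : ℝ) : ℂ) = 0

/-- The action on functions. -/
noncomputable def CT.G {A B : Set ℂ} (T : CT A B) (F : ℂ → ℝ) (y : ℂ) : ℂ :=
  ∑ g ∈ T.X, T.γ g * ((A.indicator F (g y) : ℝ) : ℂ)

/-- Injectivity on the test functions. -/
def CT.Inj {A B : Set ℂ} (T : CT A B) : Prop :=
  ∀ F : ℂ → ℝ, ContDiff ℝ ∞ F → HasCompactSupport F → (∀ z ∈ frontier A, F z = 0) →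
    (∀ y ∈ B, T.G F y = 0) → ∀ z ∈ A, F z = 0

/-- Angular mode number `k` of the sector with apex `x`. -/
noncomputable def prof (x : ℂ) (a α : ℝ) (k : ℕ) (z : ℂ) : ℝ :=
  open Classical in
  if 0 < acoord x a z ∧ acoord x a z < α then Real.sin (π * k / α * acoord x a z) else 0

def S_Test : Prop := ∀ (A : Set ℂ) (x : ℂ) (a α : ℝ) (k : ℕ) (r : ℝ), IsOpen A → Sec A x a α →
  0 < r → ∃ (F : ℂ → ℝ) (η : ℝ → ℝ) (ρ : ℝ), ContDiff ℝ ∞ F ∧ HasCompactSupport F ∧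
    (∀ z ∈ frontier A, F z = 0) ∧ (∀ z, A.indicator F z = η ‖z - x‖ * prof x a α k z) ∧
    (∀ t, r ≤ t → η t = 0) ∧ 0 < ρ ∧ ρ < r ∧ η ρ ≠ 0

def S_Loc1 : Prop := ∀ (A B : Set ℂ) (T : CT A B) (x₀ y₀ : ℂ) (a α b β : ℝ) (k : ℕ),
  IsOpen A → IsOpen B → Sec A x₀ a α → Sec B y₀ b β → 0 < k → Real.sin (π * k / α * β) ≠ 0 →
  ∀ y, 0 < acoord y₀ b y → acoord y₀ b y < β →
    (open Classical in ∑ g ∈ T.X with g y₀ = x₀, T.γ g * ((prof x₀ a α k (g y) : ℝ) : ℂ)) = 0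

def S_Loc2 : Prop := ∀ (A B : Set ℂ) (T : CT A B) (x₀ y₀ : ℂ) (a α b β : ℝ),
  IsOpen A → IsOpen B → Convex ℝ A → Convex ℝ B → Sec A x₀ a α → Sec B y₀ b β →
  Irrational (β / α) → ∀ g ∈ T.X, g y₀ ≠ x₀

def S_L2 : Prop := ∀ (n m : ℕ) (p : Fin (n + 3) → ℂ) (q : Fin (m + 3) → ℂ), IsConvexPolygon p →
  IsConvexPolygon q → ∀ T : CT (reg p) (reg q), T.Inj → ∀ i, Irrational (ang p i / π) →
  (∀ g ∈ T.X, g.symm (p i) ∈ creg q → ∃ j, g (q j) = p i) →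
  ∃ j, ∃ k : ℕ, 0 < k ∧ ang q j = k * ang p i

def S_Flipq : Prop := ∀ (A B : Set ℂ) (T : CT A B) (u v : ℂ), IsOpen A → IsOpen B → u ≠ v →
  openSegment ℝ u v ⊆ frontier B → ∀ g ∈ T.X, (∃ z ∈ openSegment ℝ u v, g z ∈ A) →
  ∃ h ∈ T.X, h ≠ g ∧ h u = g u ∧ h v = g v

def S_Flipp : Prop := ∀ (A B : Set ℂ) (T : CT A B) (u v : ℂ), IsOpen A → IsOpen B → u ≠ v →
  (∀ z ∈ openSegment ℝ u v, ∃ ε > 0, ∀ w ∈ ball z ε, (w ∈ A ↔ 0 < lft u v w)) →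
  ∀ g ∈ T.X, (∃ z ∈ B, g z ∈ openSegment ℝ u v) →
  ∃ h ∈ T.X, h ≠ g ∧ h.symm u = g.symm u ∧ h.symm v = g.symm v

def S_Cover : Prop := ∀ (A B : Set ℂ) (T : CT A B), IsOpen A → IsOpen B → T.Inj →
  ∀ x ∈ A, ∃ g ∈ T.X, g.symm x ∈ closure B

/-! ### Combinatorics of the placements -/

/-- The reflection closure property of a finite set of placements at the sides of `p`. -/
def FlipP {n m : ℕ} (p : Fin (n + 3) → ℂ) (q : Fin (m + 3) → ℂ) (X : Finset (ℂ ≃ᵢ ℂ)) : Prop :=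
  ∀ g ∈ X, ∀ i, (∃ z ∈ reg q, g z ∈ side p i) →
    ∃ h ∈ X, h ≠ g ∧ h.symm (p i) = g.symm (p i) ∧ h.symm (p (i + 1)) = g.symm (p (i + 1))

/-- The reflection closure property of a finite set of placements at the sides of `q`. -/
def FlipQ {n m : ℕ} (p : Fin (n + 3) → ℂ) (q : Fin (m + 3) → ℂ) (X : Finset (ℂ ≃ᵢ ℂ)) : Prop :=
  ∀ g ∈ X, ∀ j, (∃ z ∈ side q j, g z ∈ reg p) →
    ∃ h ∈ X, h ≠ g ∧ h (q j) = g (q j) ∧ h (q (j + 1)) = g (q (j + 1))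

/-- No vertex of `p` with irrational angle lies inside a placement of `q`. -/
def S_Int : Prop := ∀ (n m : ℕ) (p : Fin (n + 3) → ℂ) (q : Fin (m + 3) → ℂ), IsConvexPolygon p →
  IsConvexPolygon q → ∀ X : Finset (ℂ ≃ᵢ ℂ), FlipP p q X → ∀ i, Irrational (ang p i / π) →
  ∀ g ∈ X, g.symm (p i) ∉ reg q

/-- A configuration of placements: `g ∈ X` places `q` over `p`. -/
structure Cfg {n m : ℕ} (p : Fin (n + 3) → ℂ) (q : Fin (m + 3) → ℂ) where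
  cp : IsConvexPolygon p
  cq : IsConvexPolygon q
  X : Finset (ℂ ≃ᵢ ℂ)
  ov : ∀ g ∈ X, ∃ y ∈ reg q, g y ∈ reg p
  flipp : FlipP p q X
  flipq : FlipQ p q X
  vertp : ∀ g ∈ X, ∀ i, g.symm (p i) ∈ creg q → ∃ j, g (q j) = p i
  vertq : ∀ g ∈ X, ∀ j, g (q j) ∈ creg p → ∃ i, g (q j) = p i
  cls : ∀ g ∈ X, ∀ h ∈ X, ∀ i i' j j', g (q j) = p i → h (q j') = p i' → (i = i' ↔ j = j')
  angle : ∀ g ∈ X, ∀ i j, g (q j) = p i → ang q j = ang p i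

/-- The flip lemma. -/
def S_Flip : Prop := ∀ (n m : ℕ) (p : Fin (n + 3) → ℂ) (q : Fin (m + 3) → ℂ) (C : Cfg p q),
  ∀ g ∈ C.X, ∀ a ∈ creg p, ∀ a' ∈ creg p, (∀ i, a ≠ p i) → g.symm a ∈ creg q →
  (∀ t : ℝ, 0 < t → t ≤ 1 → g.symm (a + t • (a' - a)) ∉ creg q) →
  ∃ u, lft (q u) (q (u + 1)) (g.symm a) = 0 ∧
    (∀ t : ℝ, 0 < t → t ≤ 1 → lft (q u) (q (u + 1)) (g.symm (a + t • (a' - a))) < 0) ∧
    ∃ h ∈ C.X, h.symm a = g.symm a ∧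
      (∃ ε > 0, ∀ t : ℝ, 0 < t → t < ε → h.symm (a + t • (a' - a)) ∈ creg q) ∧
      ∀ w, 0 < lft (q u) (q (u + 1)) w → ∀ t : ℝ, 0 < t → t ≤ 1 →
        ‖h.symm (a + t • (a' - a)) - w‖ < ‖g.symm (a + t • (a' - a)) - w‖

/-- Shortest segments between vertices are not cut. -/
def S_Claim1 : Prop := ∀ (n m : ℕ) (p : Fin (n + 3) → ℂ) (q : Fin (m + 3) → ℂ) (C : Cfg p q)
  (i i' : Fin (n + 3)) (j : Fin (m + 3)), i ≠ i' →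
  (∀ k l, k ≠ l → ‖p i' - p i‖ ≤ ‖q k - q l‖) → ∀ g ∈ C.X, g (q j) = p i →
  (∃ ε > 0, ∀ t : ℝ, 0 < t → t < ε → g.symm (p i + t • (p i' - p i)) ∈ creg q) →
  ∃ j', g (q j') = p i'

/-- First half of the corner lemma. -/
def S_LA : Prop := ∀ (n m : ℕ) (p : Fin (n + 3) → ℂ) (q : Fin (m + 3) → ℂ) (C : Cfg p q)
  (i i' : Fin (n + 3)) (j j' : Fin (m + 3)), i ≠ i' → j ≠ j' →
  (∀ h ∈ C.X, h (q j) = p i →
    (∃ ε > 0, ∀ t : ℝ, 0 < t → t < ε → h (q j + t • (q j' - q j)) ∈ creg p) → h (q j') = p i') →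
  ∀ g ∈ C.X, g (q j) = p i → g (q j') = p i' →
  ((∃ z ∈ side q j, g z ∈ reg p) → j' = j + 1) ∧
  ((∃ z ∈ side q (j - 1), g z ∈ reg p) → j' = j - 1)

/-- The corner lemma. -/
def S_Corner : Prop := ∀ (n m : ℕ) (p : Fin (n + 3) → ℂ) (q : Fin (m + 3) → ℂ) (C : Cfg p q)
  (i i' : Fin (n + 3)) (j j' : Fin (m + 3)), i ≠ i' → j ≠ j' →
  ∀ g ∈ C.X, g (q j) = p i → g (q j') = p i' →
  ((∃ z ∈ side q j, g z ∈ reg p) → j' = j + 1) →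
  ((∃ z ∈ side q (j - 1), g z ∈ reg p) → j' = j - 1) →
  ((∃ z ∈ reg q, g z ∈ side p i) → i' = i + 1) →
  ((∃ z ∈ reg q, g z ∈ side p (i - 1)) → i' = i - 1) →
  (SameRay ℝ (g (q (j + 1)) - p i) (p (i + 1) - p i) ∧
    SameRay ℝ (g (q (j - 1)) - p i) (p (i - 1) - p i)) ∨
  (SameRay ℝ (g (q (j + 1)) - p i) (p (i - 1) - p i) ∧
    SameRay ℝ (g (q (j - 1)) - p i) (p (i + 1) - p i))

/-- Walking around the polygons. -/
def S_Walk : Prop := ∀ (n m : ℕ) (p : Fin (n + 3) → ℂ) (q : Fin (m + 3) → ℂ) (C : Cfg p q),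
  ∀ g ∈ C.X, ∀ i j, g (q j) = p i →
  ((SameRay ℝ (g (q (j + 1)) - p i) (p (i + 1) - p i) ∧
    SameRay ℝ (g (q (j - 1)) - p i) (p (i - 1) - p i)) ∨
  (SameRay ℝ (g (q (j + 1)) - p i) (p (i - 1) - p i) ∧
    SameRay ℝ (g (q (j - 1)) - p i) (p (i + 1) - p i))) → g '' range q = range p

end Pool.Agent.W780.PG
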