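import Pool.Agent.W780.TR.Defs

set_option autoImplicit false

/-!
Convex polygons and transplantations between them: definitions.

The plane is `ℂ`; `ℂ ≃ᵢ ℂ` is the group of all isometries of the plane.
-/

namespace Pool.Agent.W780.PG

open Complex Set Filter Topology

open scoped ContDiff ComplexConjugate Real

/-- `lft a b z > 0` means: `z` lies strictly to the left of the line directed from `a` to `b`. -/
def lft (a b z : ℂ) : ℝ := (conj (b - a) * (z - a)).im

/-- `p 0, p 1, …` are the vertices of a strictly convex polygon in counterclockwise order: all other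
vertices lie strictly to the left of the directed line through two consecutive vertices. -/
structure IsConvexPolygon {n : ℕ} (p : Fin (n + 3) → ℂ) : Prop where
  pos : ∀ i j, j ≠ i → j ≠ i + 1 → 0 < lft (p i) (p (i + 1)) (p j)

/-- The open region of the polygon. -/
def region {n : ℕ} (p : Fin (n + 3) → ℂ) : Set ℂ := interior (convexHull ℝ (range p))

/-- The interior angle at the vertex `p i`. -/
noncomputable def ang {n : ℕ} (p : Fin (n + 3) → ℂ) (i : Fin (n + 3)) : ℝ :=
  EuclideanGeometry.angle (p (i - 1)) (p i) (p (i + 1))

/-- Generic angles: no angle is a rational multiple of `π`, and no two angles have a rational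
ratio. -/
structure GenericAngles {n : ℕ} (p : Fin (n + 3) → ℂ) : Prop where
  irrational : ∀ i, Irrational (ang p i / π)
  ratio : ∀ i j, i ≠ j → Irrational (ang p i / ang p j)

/-- A transplantation is injective on the test functions. -/
def IsInjective {Ω Ω' : Set ℂ} (T : TR.Transplantation Ω Ω') : Prop :=
  ∀ F : ℂ → ℂ, ContDiff ℝ ∞ F → HasCompactSupport F → (∀ z ∈ frontier Ω, F z = 0) →
    (∀ y ∈ T.D, T.act F y = 0) → ∀ z ∈ Ω, F z = 0

end Pool.Agent.W780.PG
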